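import Pool.Agent.H622R2.StrongDivRed
import Pool.Agent.NPC.Sat

/-!
# Recognising strongly 2-divisible graphs is coNP-hard

The input is a finite simple graph, given by an adjacency matrix `M : List (List Bool)`;
`matGraph M` is the graph.  The graph is strongly `2`-divisible when each of its induced subgraphs
has a two-colouring of its vertices for which no colour class contains a maximal clique with at
least two vertices.  Deciding this is hard for coNP under polynomial-time many-one reductions.
-/

namespace Pool.Agent.Results.MP_65ccf5_lc.StronglyDivisibleHard

open Pool.Agent.NPC Pool.Agent.H622R2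

/-- `coNP`-hardness of a language, under polynomial-time many-one reductions. -/
def CoNPHard (L : Set (List Bool)) : Prop := ∀ L' : Set (List Bool), InNP L'ᶜ → Reduces L' L

/-- Recognising strongly `2`-divisible graphs is `coNP`-hard under polynomial-time many-one
reductions. -/
theorem result :
    CoNPHard (lang (fun M : List (List Bool) => StronglyDivisible 2 (matGraph M))) := by
  intro L' hL'
  have h : HardI (fun M : List (List Bool) => ¬ StronglyDivisible 2 (matGraph M)) :=
    HardI.trans (Q := fun M : List (List Bool) => ¬ StronglyDivisible 2 (matGraph M)) hardI_SAT3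
      sdRed_poly (fun φ => sdRed_correct φ)
  obtain ⟨f, hf, hfL⟩ := h _ hL'
  refine ⟨fun x => bits (f x), PC.toPolyTime hf, fun x => ?_⟩
  have h1 : x ∈ L' ↔ StronglyDivisible 2 (matGraph (f x)) := by
    have := hfL x
    rw [Set.mem_compl_iff] at this
    exact not_iff_not.1 this
  rw [h1]
  constructor
  · intro h
    exact ⟨f x, rfl, h⟩
  · rintro ⟨a, ha, hPa⟩
    rw [bits_injective ha] at hPa
    exact hPa

end Pool.Agent.Results.MP_65ccf5_lc.StronglyDivisibleHard
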